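import Pool.Agent.MP_fc1aea_an.Mg.H30_Final

open MeasureTheory

namespace Pool.Agent.Results.MP_fc1aea_an.NotRigidL1

/-- There is a real Banach space uniformly homeomorphic to `L_1[0,1]` and not isomorphic to it. -/
theorem result :
    ∃ (X : Type) (_ : NormedAddCommGroup X) (_ : NormedSpace ℝ X) (_ : CompleteSpace X),
      Nonempty (UniformEquiv X (Lp ℝ 1 (volume.restrict (Set.Icc (0:ℝ) 1)))) ∧
      ¬ Nonempty (X ≃L[ℝ] Lp ℝ 1 (volume.restrict (Set.Icc (0:ℝ) 1))) :=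
  Pool.Agent.MP_fc1aea_an.H30.main

end Pool.Agent.Results.MP_fc1aea_an.NotRigidL1
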