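import Mathlib
import Pool.Agent.MP_fc1aea_an.Mg.Main

open MeasureTheory

namespace Pool.Agent.Results.MP_fc1aea_an.RigidAboveTwo

/-- For `2 < p < ∞`, a real Banach space uniformly homeomorphic to `L_p[0,1]` is linearly
isomorphic to `L_p[0,1]`. -/
theorem result :
    ∀ (p : ENNReal) [Fact (1 ≤ p)], 2 < p → p ≠ ⊤ →
      ∀ (X : Type) [NormedAddCommGroup X] [NormedSpace ℝ X] [CompleteSpace X],
        Nonempty (UniformEquiv X (Lp ℝ p (volume.restrict (Set.Icc (0 : ℝ) 1)))) →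
        Nonempty (X ≃L[ℝ] Lp ℝ p (volume.restrict (Set.Icc (0 : ℝ) 1))) := by
  intro p _ hp2 hp X _ _ _ ⟨e⟩
  exact Pool.Agent.MP_fc1aea_an.rigidity p hp2 hp X e

end Pool.Agent.Results.MP_fc1aea_an.RigidAboveTwo
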